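import Mathlib

/-! Strict Sigma-1 formulas (abstractly) and definability of primitive recursive functions. -/

namespace Pool.Agent.MP_8ec908_lc.H9

open Function

/-- Arithmetic terms over variables in `ℕ`. -/
inductive AT : Type
  | var : ℕ → AT
  | zero : AT
  | succ : AT → AT
  | add : AT → AT → AT
  | mul : AT → AT → AT

def AT.val (v : ℕ → ℕ) : AT → ℕ
  | .var i => v i
  | .zero => 0
  | .succ t => t.val v + 1
  | .add s t => s.val v + t.val v
  | .mul s t => s.val v * t.val v

def AT.fv : AT → Finset ℕ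
  | .var i => {i}
  | .zero => ∅
  | .succ t => t.fv
  | .add s t => s.fv ∪ t.fv
  | .mul s t => s.fv ∪ t.fv

/-- Strict Sigma-1 formulas. -/
inductive S1 : Type
  | eq : AT → AT → S1
  | and : S1 → S1 → S1
  | or : S1 → S1 → S1
  | ex : ℕ → S1 → S1
  | ball : (x y : ℕ) → y ≠ x → S1 → S1

def S1.sem : S1 → (ℕ → ℕ) → Prop
  | .eq s t, v => s.val v = t.val v
  | .and a b, v => a.sem v ∧ b.sem v
  | .or a b, v => a.sem v ∨ b.sem v
  | .ex x a, v => ∃ m, a.sem (update v x m)
  | .ball x y _ a, v => ∀ m, m ≤ v y → a.sem (update v x m)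

def S1.fv : S1 → Finset ℕ
  | .eq s t => s.fv ∪ t.fv
  | .and a b => a.fv ∪ b.fv
  | .or a b => a.fv ∪ b.fv
  | .ex x a => a.fv.erase x
  | .ball x y _ a => insert y (a.fv.erase x)

/-- Definability, for every naming of the arguments. -/
def Def (α : Type) (R : (α → ℕ) → Prop) : Prop :=
  ∀ xs : α → ℕ, (∃ N, ∀ a, xs a < N) →
    ∃ φ : S1, (∀ w ∈ φ.fv, ∃ a, xs a = w) ∧ ∀ v, φ.sem v ↔ R (fun a => v (xs a))

/-- Definability of the graph of a function. -/
def DF (α : Type) (f : (α → ℕ) → ℕ) : Prop :=
  Def (Option α) fun w => w none = f fun a => w (some a)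

namespace Def

variable {α β : Type}

theorem congr {R R' : (α → ℕ) → Prop} (h : Def α R) (e : ∀ w, R w ↔ R' w) : Def α R' := by
  have : R = R' := funext fun w => propext (e w)
  exact this ▸ h

theorem reindex {R : (α → ℕ) → Prop} (h : Def α R) (e : α → β) :
    Def β fun w => R fun a => w (e a) := by
  rintro xs ⟨N, hN⟩
  obtain ⟨φ, h1, h2⟩ := h (fun a => xs (e a)) ⟨N, fun a => hN _⟩
  refine ⟨φ, fun w hw => ?_, h2⟩
  obtain ⟨a, ha⟩ := h1 w hw
  exact ⟨e a, ha⟩

theorem and {R R' : (α → ℕ) → Prop} (h : Def α R) (h' : Def α R') :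
    Def α fun w => R w ∧ R' w := by
  intro xs hN
  obtain ⟨φ, h1, h2⟩ := h xs hN
  obtain ⟨ψ, h3, h4⟩ := h' xs hN
  refine ⟨.and φ ψ, fun w hw => ?_, fun v => and_congr (h2 v) (h4 v)⟩
  rcases Finset.mem_union.mp hw with hw | hw
  exacts [h1 w hw, h3 w hw]

theorem or {R R' : (α → ℕ) → Prop} (h : Def α R) (h' : Def α R') :
    Def α fun w => R w ∨ R' w := by
  intro xs hN
  obtain ⟨φ, h1, h2⟩ := h xs hN
  obtain ⟨ψ, h3, h4⟩ := h' xs hN
  refine ⟨.or φ ψ, fun w hw => ?_, fun v => or_congr (h2 v) (h4 v)⟩
  rcases Finset.mem_union.mp hw with hw | hw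
  exacts [h1 w hw, h3 w hw]

theorem ex {P : ℕ → (α → ℕ) → Prop}
    (h : Def (Option α) fun w => P (w none) fun a => w (some a)) :
    Def α fun w => ∃ m, P m w := by
  rintro xs ⟨N, hN⟩
  obtain ⟨φ, h1, h2⟩ := h (fun o => o.elim N xs) ⟨N + 1, fun o => by
    cases o with
    | none => simp
    | some a => exact (hN a).trans (Nat.lt_succ_self N)⟩
  refine ⟨.ex N φ, fun w hw => ?_, fun v => ?_⟩
  · obtain ⟨hne, hw⟩ := Finset.mem_erase.mp hw
    obtain ⟨o, ho⟩ := h1 w hw
    cases o with
    | none => exact absurd ho.symm hne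
    | some a => exact ⟨a, ho⟩
  · refine exists_congr fun m => ?_
    rw [h2]
    have : (fun a => update v N m (xs a)) = fun a => v (xs a) :=
      funext fun a => update_of_ne (hN a).ne _ _
    simp [this]

theorem ballv {P : ℕ → (α → ℕ) → Prop} (j : α)
    (h : Def (Option α) fun w => P (w none) fun a => w (some a)) :
    Def α fun w => ∀ m, m ≤ w j → P m w := by
  rintro xs ⟨N, hN⟩
  obtain ⟨φ, h1, h2⟩ := h (fun o => o.elim N xs) ⟨N + 1, fun o => by
    cases o with
    | none => simp
    | some a => exact (hN a).trans (Nat.lt_succ_self N)⟩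
  refine ⟨.ball N (xs j) (hN j).ne φ, fun w hw => ?_, fun v => ?_⟩
  · rcases Finset.mem_insert.mp hw with rfl | hw
    · exact ⟨j, rfl⟩
    obtain ⟨hne, hw⟩ := Finset.mem_erase.mp hw
    obtain ⟨o, ho⟩ := h1 w hw
    cases o with
    | none => exact absurd ho.symm hne
    | some a => exact ⟨a, ho⟩
  · refine forall_congr' fun m => imp_congr Iff.rfl ?_
    rw [h2]
    have : (fun a => update v N m (xs a)) = fun a => v (xs a) :=
      funext fun a => update_of_ne (hN a).ne _ _
    simp [this]

theorem eq_var (a b : α) : Def α fun w => w a = w b := fun xs _ =>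
  ⟨.eq (.var (xs a)) (.var (xs b)), by simp [S1.fv, AT.fv], fun _ => Iff.rfl⟩

theorem eq_zero (a : α) : Def α fun w => w a = 0 := fun xs _ =>
  ⟨.eq (.var (xs a)) .zero, by simp [S1.fv, AT.fv], fun _ => Iff.rfl⟩

theorem eq_succ (a b : α) : Def α fun w => w a = w b + 1 := fun xs _ =>
  ⟨.eq (.var (xs a)) (.succ (.var (xs b))), by simp [S1.fv, AT.fv], fun _ => Iff.rfl⟩

theorem eq_add (a b c : α) : Def α fun w => w a = w b + w c := fun xs _ =>
  ⟨.eq (.var (xs a)) (.add (.var (xs b)) (.var (xs c))), by simp [S1.fv, AT.fv], fun _ => Iff.rfl⟩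

theorem eq_mul (a b c : α) : Def α fun w => w a = w b * w c := fun xs _ =>
  ⟨.eq (.var (xs a)) (.mul (.var (xs b)) (.var (xs c))), by simp [S1.fv, AT.fv], fun _ => Iff.rfl⟩

/-- Substitution of a definable function. -/
theorem subst {P : ℕ → (α → ℕ) → Prop} {f : (α → ℕ) → ℕ} (hf : DF α f)
    (h : Def (Option α) fun w => P (w none) fun a => w (some a)) :
    Def α fun w => P (f w) w :=
  (Def.ex (P := fun m w => m = f w ∧ P m w) (Def.and hf h)).congr fun w => by simp

end Def

namespace DF

variable {α β : Type}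

theorem congr {f f' : (α → ℕ) → ℕ} (h : DF α f) (e : ∀ w, f w = f' w) : DF α f' := by
  have : f = f' := funext e
  exact this ▸ h

theorem reindex {f : (α → ℕ) → ℕ} (h : DF α f) (e : α → β) :
    DF β fun w => f fun a => w (e a) :=
  Def.reindex h (Option.map e)

theorem var (a : α) : DF α fun w => w a := Def.eq_var none (some a)

theorem zero : DF α fun _ => 0 := Def.eq_zero none

/-- unary operations -/
theorem un {op : ℕ → ℕ} (hop : DF Unit fun w => op (w ())) {f : (α → ℕ) → ℕ} (hf : DF α f) :
    DF α fun w => op (f w) :=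
  Def.subst (α := Option α) (P := fun m w => w none = op m) (hf.reindex some)
    (Def.reindex hop (fun o => o.elim (some none) fun _ => none))

/-- binary operations -/
theorem bin {op : ℕ → ℕ → ℕ} (hop : DF Bool fun w => op (w false) (w true))
    {f g : (α → ℕ) → ℕ} (hf : DF α f) (hg : DF α g) : DF α fun w => op (f w) (g w) :=
  Def.subst (α := Option α) (P := fun m w => w none = op m (g fun a => w (some a)))
    (hf.reindex some)
    (Def.subst (α := Option (Option α)) (P := fun m w => w (some none) = op (w none) m)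
      (hg.reindex fun a => some (some a))
      (Def.reindex hop (fun o => o.elim (some (some none)) fun b => if b then none else some none)))

theorem succ {f : (α → ℕ) → ℕ} (hf : DF α f) : DF α fun w => f w + 1 :=
  un (op := fun x => x + 1) (Def.eq_succ none (some ())) hf

theorem add {f g : (α → ℕ) → ℕ} (hf : DF α f) (hg : DF α g) : DF α fun w => f w + g w :=
  bin (op := fun x y => x + y) (Def.eq_add none (some false) (some true)) hf hg

theorem mul {f g : (α → ℕ) → ℕ} (hf : DF α f) (hg : DF α g) : DF α fun w => f w * g w :=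
  bin (op := fun x y => x * y) (Def.eq_mul none (some false) (some true)) hf hg

end DF

namespace Def

variable {α : Type}

theorem eq {f g : (α → ℕ) → ℕ} (hf : DF α f) (hg : DF α g) : Def α fun w => f w = g w :=
  Def.subst (P := fun m w => m = g w) hf hg

theorem ball {P : ℕ → (α → ℕ) → Prop} {t : (α → ℕ) → ℕ} (ht : DF α t)
    (h : Def (Option α) fun w => P (w none) fun a => w (some a)) :
    Def α fun w => ∀ m, m ≤ t w → P m w :=
  Def.subst (P := fun k w => ∀ m, m ≤ k → P m w) ht
    (Def.ballv (α := Option α) (P := fun m w => P m fun a => w (some a)) none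
      (h.reindex (fun o => o.elim none fun a => some (some a))))

theorem le {f g : (α → ℕ) → ℕ} (hf : DF α f) (hg : DF α g) : Def α fun w => f w ≤ g w :=
  (Def.ex (P := fun m w => g w = f w + m)
    (Def.eq (hg.reindex some) ((hf.reindex some).add (DF.var none)))).congr fun _ =>
      ⟨fun ⟨m, hm⟩ => by omega, fun h => ⟨_, (Nat.add_sub_cancel' h).symm⟩⟩

theorem lt {f g : (α → ℕ) → ℕ} (hf : DF α f) (hg : DF α g) : Def α fun w => f w < g w :=
  Def.le hf.succ hg

end Def

namespace DF

variable {α : Type}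

theorem pair {f g : (α → ℕ) → ℕ} (hf : DF α f) (hg : DF α g) :
    DF α fun w => Nat.pair (f w) (g w) := by
  refine bin (op := Nat.pair) ?_ hf hg
  have a : DF (Option Bool) fun w => w (some false) := DF.var _
  have b : DF (Option Bool) fun w => w (some true) := DF.var _
  have y : DF (Option Bool) fun w => w none := DF.var _
  refine (((Def.lt a b).and (Def.eq y ((b.mul b).add a))).or
    ((Def.le b a).and (Def.eq y (((a.mul a).add a).add b)))).congr fun w => ?_
  simp only [Nat.pair]
  split_ifs with h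
  · simp [h, not_le.mpr h]
  · simp [h, not_lt.mp h]

theorem left {f : (α → ℕ) → ℕ} (hf : DF α f) : DF α fun w => (f w).unpair.1 := by
  refine un (op := fun x => x.unpair.1) ?_ hf
  refine (Def.ex (P := fun m w => w (some ()) = Nat.pair (w none) m)
    (Def.eq (DF.var _) ((DF.var _).pair (DF.var _)))).congr fun w => ?_
  constructor
  · rintro ⟨m, hm⟩
    simp [hm]
  · intro h
    exact ⟨_, by rw [h, Nat.pair_unpair]⟩

theorem right {f : (α → ℕ) → ℕ} (hf : DF α f) : DF α fun w => (f w).unpair.2 := by
  refine un (op := fun x => x.unpair.2) ?_ hf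
  refine (Def.ex (P := fun m w => w (some ()) = Nat.pair m (w none))
    (Def.eq (DF.var _) ((DF.var _).pair (DF.var _)))).congr fun w => ?_
  constructor
  · rintro ⟨m, hm⟩
    simp [hm]
  · intro h
    exact ⟨_, by rw [h, Nat.pair_unpair]⟩

theorem mod {f g : (α → ℕ) → ℕ} (hf : DF α f) (hg : DF α g) :
    DF α fun w => f w % (g w + 1) := by
  refine bin (op := fun x y => x % (y + 1)) ?_ hf hg
  refine ((Def.le (DF.var none) (DF.var (some true))).and
    (Def.ex (P := fun q w => w (some false) = (w (some true) + 1) * q + w none)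
      (Def.eq (DF.var _) (((DF.var _).succ.mul (DF.var _)).add (DF.var _))))).congr fun w => ?_
  beta_reduce
  constructor
  · rintro ⟨h, q, hq⟩
    rw [hq, Nat.mul_add_mod, Nat.mod_eq_of_lt (Nat.lt_succ_of_le h)]
  · intro h
    refine ⟨?_, w (some false) / (w (some true) + 1), ?_⟩
    · rw [h]
      exact Nat.le_of_lt_succ (Nat.mod_lt _ (Nat.succ_pos _))
    · rw [h]
      exact (Nat.div_add_mod _ _).symm

theorem beta {f g : (α → ℕ) → ℕ} (hf : DF α f) (hg : DF α g) :
    DF α fun w => Nat.beta (f w) (g w) :=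
  hf.left.mod (hg.succ.mul hf.right)

theorem of_primrec {F : ℕ → ℕ} (hF : Nat.Primrec F) : DF Unit fun w => F (w ()) := by
  induction hF with
  | zero => exact DF.zero
  | succ => exact (DF.var _).succ
  | left => exact (DF.var _).left
  | right => exact (DF.var _).right
  | pair _ _ ih1 ih2 => exact ih1.pair ih2
  | comp _ _ ih1 ih2 => exact un ih1 ih2
  | @prec f g _ _ ih1 ih2 =>
    have key : Def (Option Unit) fun w => ∃ s,
        Nat.beta s 0 = f (w (some ())).unpair.1 ∧ Nat.beta s (w (some ())).unpair.2 = w none ∧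
        ∀ i, i ≤ (w (some ())).unpair.2 → (i = (w (some ())).unpair.2 ∨
          Nat.beta s (i + 1) = g (Nat.pair (w (some ())).unpair.1 (Nat.pair i (Nat.beta s i)))) := by
      refine Def.ex ?_
      refine Def.and (Def.eq ((DF.var _).beta DF.zero) (un ih1 (DF.var _).left)) ?_
      refine Def.and (Def.eq ((DF.var _).beta (DF.var _).right) (DF.var _)) ?_
      refine Def.ball (DF.var _).right ?_
      refine Def.or (Def.eq (DF.var _) (DF.var _).right) ?_
      exact Def.eq ((DF.var _).beta (DF.var _).succ)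
        (un ih2 ((DF.var _).left.pair ((DF.var _).pair ((DF.var _).beta (DF.var _)))))
    refine key.congr fun w => ?_
    beta_reduce
    generalize w (some ()) = x
    generalize w none = y
    simp only [Nat.unpaired]
    generalize x.unpair.1 = z
    generalize x.unpair.2 = n
    set r : ℕ → ℕ := fun n => n.rec (f z) fun y IH => g (Nat.pair z (Nat.pair y IH)) with hr
    change _ ↔ y = r n
    have r0 : r 0 = f z := rfl
    have rs : ∀ i, r (i + 1) = g (Nat.pair z (Nat.pair i (r i))) := fun i => rfl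
    constructor
    · rintro ⟨s, h0, hn, hs⟩
      have : ∀ i, i ≤ n → Nat.beta s i = r i := by
        intro i
        induction i with
        | zero => intro _; rw [h0, r0]
        | succ i ih =>
          intro hi
          rcases hs i (by omega) with h | h
          · omega
          · rw [h, rs, ih (by omega)]
      rw [← hn, this n le_rfl]
    · rintro rfl
      have hb : ∀ i, i ≤ n → Nat.beta (Nat.unbeta ((List.range (n + 1)).map r)) i = r i := by
        intro i hi
        have := Nat.beta_unbeta_coe ((List.range (n + 1)).map r) ⟨i, by simp; omega⟩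
        simpa using this
      refine ⟨Nat.unbeta ((List.range (n + 1)).map r), ?_, hb n le_rfl, fun i hi => ?_⟩
      · rw [hb 0 (Nat.zero_le _), r0]
      · rcases hi.eq_or_lt with h | h
        · exact Or.inl h
        · right
          rw [hb (i + 1) h, hb i hi, rs]

end DF

/-- A primitive recursive function has a strict Sigma-1 graph, for any two variable names. -/
theorem graph_def {F : ℕ → ℕ} (hF : Primrec F) (x y : ℕ) :
    ∃ φ : S1, (∀ w ∈ φ.fv, w = y ∨ w = x) ∧ ∀ v, φ.sem v ↔ v y = F (v x) := by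
  obtain ⟨φ, h1, h2⟩ := DF.of_primrec (Primrec.nat_iff.mp hF) (fun o => o.elim y fun _ => x)
    ⟨max x y + 1, fun o => by cases o <;> simp⟩
  refine ⟨φ, fun w hw => ?_, h2⟩
  obtain ⟨o, ho⟩ := h1 w hw
  cases o with
  | none => exact Or.inl ho.symm
  | some _ => exact Or.inr ho.symm

/-- A primitive recursive relation is strict Sigma-1. -/
theorem rel_def {R : ℕ → ℕ → Prop} (hR : PrimrecRel R) :
    ∃ φ : S1, (∀ w ∈ φ.fv, w = 0 ∨ w = 1) ∧ ∀ v, φ.sem v ↔ R (v 0) (v 1) := by
  obtain ⟨inst, hp⟩ := hR
  have h1 : Primrec fun n : ℕ => Encodable.encode (decide (R n.unpair.1 n.unpair.2)) :=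
    Primrec.encode.comp (hp.comp Primrec.unpair)
  have h2 : Def Bool fun w => R (w false) (w true) := by
    refine (Def.eq (DF.un (DF.of_primrec (Primrec.nat_iff.mp h1))
      ((DF.var false).pair (DF.var true))) DF.zero.succ).congr fun w => ?_
    by_cases h : R (w false) (w true) <;> simp [h]
  obtain ⟨φ, h3, h4⟩ := h2 (fun b => if b then 1 else 0) ⟨2, fun b => by cases b <;> simp⟩
  refine ⟨φ, fun w hw => ?_, fun v => by simpa using h4 v⟩
  obtain ⟨b, hb⟩ := h3 w hw
  cases b <;> simp_all

end Pool.Agent.MP_8ec908_lc.H9
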