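import Pool.Agent.MP_8ec908_lc.H9.Kit
import Pool.Agent.MP_8ec908_lc.H9.Sigma

/-! Module M3: translation of strict Sigma-1 formulas, completeness in `Q`, absoluteness. -/

namespace Pool.Agent.MP_8ec908_lc.H9

open Pool.Agent.MP_8ec908_lc.Defs Pool.Agent.MP_8ec908_lc.H18 Pool.Agent.MP_8ec908_lc.H78 Function

/-- A variable, or the numeral assigned to it. -/
def trV (σ : ℕ → Option ℕ) (i : ℕ) : Tm :=
  match σ i with
  | none => .var i
  | some m => num m

def trT (σ : ℕ → Option ℕ) : AT → Tm
  | .var i => trV σ i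
  | .zero => zero
  | .succ t => succ (trT σ t)
  | .add s t => add (trT σ s) (trT σ t)
  | .mul s t => mul (trT σ s) (trT σ t)

/-- A variable different from `x`, `y` and not free in `a`. -/
def fr (x y : ℕ) (a : S1) : ℕ := (insert x (insert y a.fv)).sup id + 1

theorem fr_spec (x y : ℕ) (a : S1) : fr x y a ≠ x ∧ fr x y a ≠ y ∧ fr x y a ∉ a.fv := by
  have key : ∀ w ∈ insert x (insert y a.fv), fr x y a ≠ w := fun w hw => by
    have : w ≤ (insert x (insert y a.fv)).sup id := Finset.le_sup (f := id) hw
    unfold fr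
    omega
  exact ⟨key x (by simp), key y (by simp), fun h => key _ (by simp [h]) rfl⟩

def tr (g : Tm → Fm) : (ℕ → Option ℕ) → S1 → Fm
  | σ, .eq s t => .eq (trT σ s) (trT σ t)
  | σ, .and a b => conj (tr g σ a) (tr g σ b)
  | σ, .or a b => .imp (neg (tr g σ a)) (tr g σ b)
  | σ, .ex x a => ex x (conj (g (.var x)) (tr g (update σ x none) a))
  | σ, .ball x y _ a => .all x (.all (fr x y a)
      (.imp (.eq (add (.var (fr x y a)) (.var x))
          (trV (update (update σ x none) (fr x y a) none) y))
        (tr g (update (update σ x none) (fr x y a) none) a)))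

theorem trV_congr {σ τ : ℕ → Option ℕ} {i : ℕ} (h : σ i = τ i) : trV σ i = trV τ i := by
  simp only [trV, h]

theorem trT_congr {σ τ : ℕ → Option ℕ} (t : AT) (h : ∀ w ∈ t.fv, σ w = τ w) :
    trT σ t = trT τ t := by
  induction t with
  | var i => exact trV_congr (h i (by simp [AT.fv]))
  | zero => rfl
  | succ t ih => simp only [trT, ih h]
  | add s t ih1 ih2 =>
    simp only [trT, ih1 fun w hw => h w (by simp [AT.fv, hw]),
      ih2 fun w hw => h w (by simp [AT.fv, hw])]
  | mul s t ih1 ih2 =>
    simp only [trT, ih1 fun w hw => h w (by simp [AT.fv, hw]),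
      ih2 fun w hw => h w (by simp [AT.fv, hw])]

theorem tr_congr (g : Tm → Fm) (φ : S1) : ∀ {σ τ : ℕ → Option ℕ}, (∀ w ∈ φ.fv, σ w = τ w) →
    tr g σ φ = tr g τ φ := by
  induction φ with
  | eq s t =>
    intro σ τ h
    simp only [tr, trT_congr s fun w hw => h w (by simp [S1.fv, hw]),
      trT_congr t fun w hw => h w (by simp [S1.fv, hw])]
  | and a b ih1 ih2 =>
    intro σ τ h
    simp only [tr, ih1 fun w hw => h w (by simp [S1.fv, hw]),
      ih2 fun w hw => h w (by simp [S1.fv, hw])]
  | or a b ih1 ih2 =>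
    intro σ τ h
    simp only [tr, ih1 fun w hw => h w (by simp [S1.fv, hw]),
      ih2 fun w hw => h w (by simp [S1.fv, hw])]
  | ex x a ih =>
    intro σ τ h
    have : ∀ w ∈ a.fv, update σ x none w = update τ x none w := fun w hw => by
      by_cases hx : w = x
      · simp [hx]
      · simp [hx, h w (by simp [S1.fv, hw, hx])]
    simp only [tr, ih this]
  | ball x y hyx a ih =>
    intro σ τ h
    have : ∀ w, (w ∈ a.fv ∨ w = y) → update (update σ x none) (fr x y a) none w =
        update (update τ x none) (fr x y a) none w := fun w hw => by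
      by_cases hz : w = fr x y a
      · simp [hz]
      by_cases hx : w = x
      · simp [hx, update_apply]
      · have : w ∈ (S1.ball x y hyx a).fv := by
          rcases hw with hw | hw <;> simp [S1.fv, hw, hx]
        simp [hx, hz, h w this]
    simp only [tr, ih fun w hw => this w (Or.inl hw), trV_congr (this y (Or.inr rfl))]

theorem trV_subst {σ : ℕ → Option ℕ} {x : ℕ} (hx : σ x = none) (m i : ℕ) :
    (trV σ i).subst x (num m) = trV (update σ x (some m)) i := by
  by_cases h : i = x
  · subst h
    simp [trV, hx]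
  · simp only [trV, update_of_ne h]
    cases σ i <;> simp [h]

theorem trT_subst {σ : ℕ → Option ℕ} {x : ℕ} (hx : σ x = none) (m : ℕ) (t : AT) :
    (trT σ t).subst x (num m) = trT (update σ x (some m)) t := by
  induction t with
  | var i => exact trV_subst hx m i
  | zero => simp [trT]
  | succ t ih => simp [trT, ih]
  | add s t ih1 ih2 => simp [trT, ih1, ih2]
  | mul s t ih1 ih2 => simp [trT, ih1, ih2]

theorem tr_subst {g : Tm → Fm} (hg : ∀ t x u, (g t).subst x u = g (t.subst x u)) (m x : ℕ)
    (φ : S1) : ∀ {σ : ℕ → Option ℕ}, σ x = none →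
    (tr g σ φ).subst x (num m) = tr g (update σ x (some m)) φ := by
  induction φ with
  | eq s t => intro σ hx; simp [tr, trT_subst hx]
  | and a b ih1 ih2 => intro σ hx; simp [tr, ih1 hx, ih2 hx]
  | or a b ih1 ih2 => intro σ hx; simp [tr, ih1 hx, ih2 hx]
  | ex y a ih =>
    intro σ hx
    simp only [tr, ex, subst_neg, subst_all]
    split_ifs with h
    · subst h
      simp
    · rw [subst_conj, hg, ih (by simp [update_apply, hx]), update_comm h]
      simp [h]
  | ball y z hzy a ih =>
    intro σ hx
    simp only [tr, subst_all]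
    split_ifs with h h'
    · subst h
      simp
    · subst h'
      rw [update_comm (Ne.symm h), update_idem]
    · have h0 : update (update σ y none) (fr y z a) none x = none := by simp [update_apply, hx]
      rw [subst_imp, subst_eq, ih h0, trV_subst h0, update_comm h', update_comm h]
      simp [h, h']

theorem trV_occ {σ : ℕ → Option ℕ} {i w : ℕ} (h : (trV σ i).Occ w) : i = w := by
  unfold trV at h
  cases hσ : σ i <;> simp_all

theorem trT_occ {σ : ℕ → Option ℕ} {t : AT} {w : ℕ} (h : (trT σ t).Occ w) : w ∈ t.fv := by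
  induction t with
  | var i => simp [AT.fv, trV_occ h]
  | zero => simp [trT] at h
  | succ t ih => exact ih (by simpa [trT] using h)
  | add s t ih1 ih2 =>
    simp only [trT, occ_add] at h
    simp only [AT.fv, Finset.mem_union]
    exact h.imp ih1 ih2
  | mul s t ih1 ih2 =>
    simp only [trT, occ_mul] at h
    simp only [AT.fv, Finset.mem_union]
    exact h.imp ih1 ih2

theorem tr_free {g : Tm → Fm} (hg : ∀ t w, (g t).Free w → t.Occ w) (φ : S1) :
    ∀ {σ : ℕ → Option ℕ} {w : ℕ}, (tr g σ φ).Free w → w ∈ φ.fv := by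
  induction φ with
  | eq s t =>
    intro σ w h
    simp only [S1.fv, Finset.mem_union]
    exact h.imp trT_occ trT_occ
  | and a b ih1 ih2 =>
    intro σ w h
    simp only [tr, free_conj] at h
    simp only [S1.fv, Finset.mem_union]
    exact h.imp ih1 ih2
  | or a b ih1 ih2 =>
    intro σ w h
    simp only [tr, free_imp, free_neg] at h
    simp only [S1.fv, Finset.mem_union]
    exact h.imp ih1 ih2
  | ex y a ih =>
    intro σ w h
    simp only [tr, free_ex, free_conj] at h
    simp only [S1.fv, Finset.mem_erase]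
    exact ⟨h.1.symm, h.2.elim (fun h' => absurd (hg _ _ h') h.1) ih⟩
  | ball y z hzy a ih =>
    intro σ w h
    simp only [tr, free_all, free_imp, free_eq, occ_add, occ_var] at h
    simp only [S1.fv, Finset.mem_insert, Finset.mem_erase]
    obtain ⟨h1, h2, ((h | h) | h) | h⟩ := h
    · exact absurd h h2
    · exact absurd h h1
    · exact Or.inl (trV_occ h).symm
    · exact Or.inr ⟨h1.symm, ih h⟩

theorem arT_num (n : ℕ) : ArT (num n) := by
  induction n with
  | zero => exact .zero
  | succ n ih => exact .succ _ ih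

theorem arT_trV (σ : ℕ → Option ℕ) (i : ℕ) : ArT (trV σ i) := by
  unfold trV
  cases σ i
  · exact .var _
  · exact arT_num _

theorem arT_trT (σ : ℕ → Option ℕ) (t : AT) : ArT (trT σ t) := by
  induction t with
  | var i => exact arT_trV σ i
  | zero => exact .zero
  | succ t ih => exact .succ _ ih
  | add s t ih1 ih2 => exact .add _ _ ih1 ih2
  | mul s t ih1 ih2 => exact .mul _ _ ih1 ih2

theorem tr_class {g : Tm → Fm} (K : Fm → Prop) (hb : K .bot)
    (he : ∀ s t, ArT s → ArT t → K (.eq s t)) (hi : ∀ a b, K a → K b → K (.imp a b))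
    (ha : ∀ x a, K a → K (.all x a)) (hg : ∀ x, K (g (.var x))) (φ : S1) :
    ∀ σ : ℕ → Option ℕ, K (tr g σ φ) := by
  induction φ with
  | eq s t => intro σ; exact he _ _ (arT_trT _ _) (arT_trT _ _)
  | and a b ih1 ih2 => intro σ; exact hi _ _ (hi _ _ (ih1 σ) (hi _ _ (ih2 σ) hb)) hb
  | or a b ih1 ih2 => intro σ; exact hi _ _ (hi _ _ (ih1 σ) hb) (ih2 σ)
  | ex y a ih =>
    intro σ
    exact hi _ _ (ha _ _ (hi _ _ (hi _ _ (hi _ _ (hg y) (hi _ _ (ih _) hb)) hb) hb)) hb
  | ball y z hzy a ih =>
    intro σ
    exact ha _ _ (ha _ _ (hi _ _ (he _ _ (.add _ _ (.var _) (.var _)) (arT_trV _ _)) (ih _)))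

/-! ### Completeness -/

section Complete

variable {A : List Fm} (hQ : ∀ a ∈ Q, a ∈ A)
include hQ

theorem trT_eval (v : ℕ → ℕ) (t : AT) :
    Prov A (.eq (trT (fun i => some (v i)) t) (num (t.val v))) := by
  induction t with
  | var i => exact pRefl _
  | zero => exact pRefl _
  | succ t ih => exact (PD.thm ih).succ.prov
  | add s t ih1 ih2 => exact (((PD.thm ih1).add (.thm ih2)).trans (.thm (add_num hQ _ _))).prov
  | mul s t ih1 ih2 => exact (((PD.thm ih1).mul (.thm ih2)).trans (.thm (mul_num hQ _ _))).prov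

theorem complete {g : Tm → Fm} (hg : ∀ t x u, (g t).subst x u = g (t.subst x u))
    (hp : ∀ m, Prov A (g (num m))) (φ : S1) :
    ∀ v : ℕ → ℕ, φ.sem v → Prov A (tr g (fun i => some (v i)) φ) := by
  induction φ with
  | eq s t =>
    intro v h
    have h1 := trT_eval hQ v s
    have h2 := trT_eval hQ v t
    simp only [S1.sem] at h
    rw [h] at h1
    exact ((PD.thm h1).trans (PD.thm h2).symm).prov
  | and a b ih1 ih2 => intro v h; exact pConj (ih1 v h.1) (ih2 v h.2)
  | or a b ih1 ih2 =>
    intro v h
    rcases h with h | h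
    · exact (PD.intro (PD.efq (.mp PD.h0 (.thm (ih1 v h))))).prov
    · exact (PD.intro (.thm (ih2 v h))).prov
  | ex x a ih =>
    rintro v ⟨m, hm⟩
    refine pMp (pExIntro (u := num m) (freeFor_closed _ _ (by simp))) ?_
    rw [subst_conj, hg, tr_subst hg m x a (by simp)]
    refine pConj (by simpa using hp m) ?_
    convert ih _ hm using 2
    funext i
    by_cases hi : i = x <;> simp [hi]
  | ball x y hyx a ih =>
    intro v h
    obtain ⟨hzx, hzy, hza⟩ := fr_spec x y a
    refine pGen _ (pGen _ ?_)
    have e : trV (update (update (fun i => some (v i)) x none) (fr x y a) none) y = num (v y) := by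
      simp [trV, update_of_ne hzy.symm, update_of_ne hyx]
    rw [e]
    refine bounded hQ (v y) _ _ _ fun m hm => ?_
    have h1 := (pLeib (A := A) x (u := num m) (by simp)
      (tr g (update (update (fun i => some (v i)) x none) (fr x y a) none) a)).1
    rw [tr_subst hg m x a (by simp [update_apply])] at h1
    have h2 : Prov A (tr g (update (update (update (fun i => some (v i)) x none) (fr x y a) none) x
        (some m)) a) := by
      rw [tr_congr g a (τ := fun i => some (update v x m i))]
      · exact ih _ (h m hm)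
      · intro w hw
        have hwz : w ≠ fr x y a := fun e => hza (e ▸ hw)
        by_cases hwx : w = x <;> simp [hwx, hwz]
    exact (PD.intro (.mp (PD.ap h1 PD.h0) (.thm h2))).prov

end Complete

/-! ### Truth in the standard model -/

@[simp] theorem val_zero (v : ℕ → ℕ) : zero.val v = 0 := by simp [zero, Tm.val]

@[simp] theorem val_succ (v : ℕ → ℕ) (t : Tm) : (succ t).val v = t.val v + 1 := by
  simp [succ, Tm.val]

@[simp] theorem val_add (v : ℕ → ℕ) (s t : Tm) : (add s t).val v = s.val v + t.val v := by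
  simp [add, Tm.val]

@[simp] theorem val_mul (v : ℕ → ℕ) (s t : Tm) : (mul s t).val v = s.val v * t.val v := by
  simp [mul, Tm.val]

@[simp] theorem val_num (v : ℕ → ℕ) (n : ℕ) : (num n).val v = n := by
  induction n with
  | zero => simp [num]
  | succ n ih => simp [num, ih]

theorem trV_val (σ : ℕ → Option ℕ) (v : ℕ → ℕ) (i : ℕ) :
    (trV σ i).val v = (σ i).getD (v i) := by
  unfold trV
  cases σ i <;> simp [Tm.val]

theorem trT_val (σ : ℕ → Option ℕ) (v : ℕ → ℕ) (t : AT) :
    (trT σ t).val v = t.val fun i => (σ i).getD (v i) := by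
  induction t with
  | var i => exact trV_val σ v i
  | zero => simp [trT, AT.val]
  | succ t ih => simp [trT, AT.val, ih]
  | add s t ih1 ih2 => simp [trT, AT.val, ih1, ih2]
  | mul s t ih1 ih2 => simp [trT, AT.val, ih1, ih2]

theorem val_congr (t : AT) {v w : ℕ → ℕ} (h : ∀ i ∈ t.fv, v i = w i) : t.val v = t.val w := by
  induction t with
  | var i => exact h i (by simp [AT.fv])
  | zero => rfl
  | succ t ih => simp only [AT.val, ih h]
  | add s t ih1 ih2 =>
    simp only [AT.val, ih1 fun w hw => h w (by simp [AT.fv, hw]),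
      ih2 fun w hw => h w (by simp [AT.fv, hw])]
  | mul s t ih1 ih2 =>
    simp only [AT.val, ih1 fun w hw => h w (by simp [AT.fv, hw]),
      ih2 fun w hw => h w (by simp [AT.fv, hw])]

theorem sem_congr (φ : S1) : ∀ {v w : ℕ → ℕ}, (∀ i ∈ φ.fv, v i = w i) → (φ.sem v ↔ φ.sem w) := by
  induction φ with
  | eq s t =>
    intro v w h
    simp only [S1.sem, val_congr s fun i hi => h i (by simp [S1.fv, hi]),
      val_congr t fun i hi => h i (by simp [S1.fv, hi])]
  | and a b ih1 ih2 =>
    intro v w h
    exact and_congr (ih1 fun i hi => h i (by simp [S1.fv, hi]))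
      (ih2 fun i hi => h i (by simp [S1.fv, hi]))
  | or a b ih1 ih2 =>
    intro v w h
    exact or_congr (ih1 fun i hi => h i (by simp [S1.fv, hi]))
      (ih2 fun i hi => h i (by simp [S1.fv, hi]))
  | ex x a ih =>
    intro v w h
    refine exists_congr fun m => ih fun i hi => ?_
    by_cases hx : i = x
    · simp [hx]
    · simp [hx, h i (by simp [S1.fv, hi, hx])]
  | ball x y hyx a ih =>
    intro v w h
    simp only [S1.sem, h y (by simp [S1.fv])]
    refine forall_congr' fun m => imp_congr Iff.rfl (ih fun i hi => ?_)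
    by_cases hx : i = x
    · simp [hx]
    · simp [hx, h i (by simp [S1.fv, hi, hx])]

theorem holds_tr (φ : S1) : ∀ (σ : ℕ → Option ℕ) (v : ℕ → ℕ),
    (tr (fun t => .eq t t) σ φ).Holds v ↔ φ.sem fun i => (σ i).getD (v i) := by
  induction φ with
  | eq s t => intro σ v; simp only [tr, Fm.Holds, trT_val, S1.sem]
  | and a b ih1 ih2 =>
    intro σ v
    simp only [tr, conj, neg, Fm.Holds, ih1, ih2, S1.sem]
    tauto
  | or a b ih1 ih2 =>
    intro σ v
    simp only [tr, neg, Fm.Holds, ih1, ih2, S1.sem]
    tauto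
  | ex x a ih =>
    intro σ v
    simp only [tr, ex, conj, neg, Fm.Holds, ih, S1.sem]
    have : ∀ m, (fun i => (update σ x none i).getD (update v x m i)) =
        update (fun i => (σ i).getD (v i)) x m := fun m => by
      funext i
      by_cases hi : i = x <;> simp [hi]
    simp only [this]
    simp
  | ball x y hyx a ih =>
    intro σ v
    obtain ⟨hzx, hzy, hza⟩ := fr_spec x y a
    simp only [tr, Fm.Holds, ih, S1.sem, val_add, trV_val, Tm.val]
    have key : ∀ m k, (a.sem fun i => (update (update σ x none) (fr x y a) none i).getD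
        (update (update v x m) (fr x y a) k i)) ↔
        a.sem (update (fun i => (σ i).getD (v i)) x m) := fun m k => by
      refine sem_congr a fun i hi => ?_
      have hiz : i ≠ fr x y a := fun e => hza (e ▸ hi)
      by_cases hix : i = x <;> simp [hix, hiz, update_of_ne hzx.symm]
    simp only [key, update_self, update_of_ne hzx.symm, update_of_ne hzy.symm, update_of_ne hyx]
    refine forall_congr' fun m => ⟨fun h hm => h ((σ y).getD (v y) - m) (by omega),
      fun h k hk => h (by omega)⟩

/-! ### Absoluteness -/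

section Abs

variable {D : Type} {M : Struc D} {ι : ℕ → D}

theorem ev_add (v : ℕ → D) (s t : Tm) : ev M v (add s t) = M.fn 0 2 ![ev M v s, ev M v t] := by
  simp only [add, ev]
  congr 1
  funext i
  fin_cases i <;> rfl

theorem ev_trT (hM : StdExt M ι) (v : ℕ → D) (w : ℕ → ℕ) (t : AT)
    (h : ∀ i ∈ t.fv, v i = ι (w i)) : ev M v (trT (fun _ => none) t) = ι (t.val w) := by
  induction t with
  | var i => exact h i (by simp [AT.fv])
  | zero =>
    rw [AT.val, ← hM.zero]
    simp only [trT, zero, ev]
    congr 1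
    funext i
    exact i.elim0
  | succ t ih =>
    rw [AT.val, ← hM.succ, ← ih h]
    simp only [trT, succ, ev]
    congr 1
    funext i
    fin_cases i
    rfl
  | add s t ih1 ih2 =>
    rw [AT.val, ← hM.add, ← ih1 fun i hi => h i (by simp [AT.fv, hi]),
      ← ih2 fun i hi => h i (by simp [AT.fv, hi])]
    exact ev_add v _ _
  | mul s t ih1 ih2 =>
    rw [AT.val, ← hM.mul, ← ih1 fun i hi => h i (by simp [AT.fv, hi]),
      ← ih2 fun i hi => h i (by simp [AT.fv, hi])]
    simp only [trT, mul, ev]
    congr 1
    funext i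
    fin_cases i <;> rfl

theorem sat_nat (hM : StdExt M ι) (v : ℕ → D) (x : ℕ) :
    sat M v (NatR (.var x)) ↔ ∃ m, v x = ι m := by
  rw [← hM.nat]
  simp only [NatR, sat]
  have : (fun i => ev M v (![Tm.var x] i)) = ![v x] := by
    funext i
    fin_cases i
    rfl
  rw [this]

theorem absolute (hM : StdExt M ι) (φ : S1) : ∀ (v : ℕ → D) (w : ℕ → ℕ),
    (∀ i ∈ φ.fv, v i = ι (w i)) → sat M v (tr NatR (fun _ => none) φ) → φ.sem w := by
  have hu : ∀ x : ℕ, update (fun _ : ℕ => (none : Option ℕ)) x none = fun _ => none :=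
    fun x => update_eq_self x _
  induction φ with
  | eq s t =>
    intro v w h hs
    simp only [tr, sat] at hs
    rw [ev_trT hM v w s fun i hi => h i (by simp [S1.fv, hi]),
      ev_trT hM v w t fun i hi => h i (by simp [S1.fv, hi])] at hs
    exact hM.inj hs
  | and a b ih1 ih2 =>
    intro v w h hs
    simp only [tr, conj, neg, sat] at hs
    exact ⟨ih1 v w (fun i hi => h i (by simp [S1.fv, hi])) (by tauto),
      ih2 v w (fun i hi => h i (by simp [S1.fv, hi])) (by tauto)⟩
  | or a b ih1 ih2 =>
    intro v w h hs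
    simp only [tr, neg, sat] at hs
    by_cases ha : sat M v (tr NatR (fun _ => none) a)
    · exact Or.inl (ih1 v w (fun i hi => h i (by simp [S1.fv, hi])) ha)
    · exact Or.inr (ih2 v w (fun i hi => h i (by simp [S1.fv, hi])) (hs ha))
  | ex x a ih =>
    intro v w h hs
    rw [tr, hu] at hs
    have hs' : ∃ d, sat M (update v x d) (NatR (.var x)) ∧
        sat M (update v x d) (tr NatR (fun _ => none) a) := by
      by_contra hc
      exact hs fun d hd => hd fun h1 h2 => hc ⟨d, h1, h2⟩
    obtain ⟨d, h1, h2⟩ := hs'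
    obtain ⟨m, hm⟩ := (sat_nat hM _ x).mp h1
    refine ⟨m, ih _ _ (fun i hi => ?_) h2⟩
    by_cases hx : i = x
    · simpa [hx] using hm
    · simp [hx, h i (by simp [S1.fv, hi, hx])]
  | ball x y hyx a ih =>
    intro v w h hs m hm
    obtain ⟨hzx, hzy, hza⟩ := fr_spec x y a
    rw [tr, hu, hu] at hs
    have h1 := hs (ι m) (ι (w y - m))
    refine ih _ _ (fun i hi => ?_) (h1 ?_)
    · have hiz : i ≠ fr x y a := fun e => hza (e ▸ hi)
      by_cases hx : i = x
      · simp [hx, update_of_ne hzx.symm]
      · simp [hx, hiz, h i (by simp [S1.fv, hi, hx])]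
    · simp only [sat, ev_add, ev, trV, update_self, update_of_ne hzx.symm, update_of_ne hzy.symm,
        update_of_ne hyx]
      rw [hM.add, h y (by simp [S1.fv]), Nat.sub_add_cancel hm]

end Abs

theorem natR_subst (t : Tm) (x : ℕ) (u : Tm) : (NatR t).subst x u = NatR (t.subst x u) := by
  simp only [NatR, Fm.subst]
  congr 1
  funext i
  fin_cases i
  rfl

theorem natR_free (t : Tm) (w : ℕ) (h : (NatR t).Free w) : t.Occ w := by
  obtain ⟨i, hi⟩ := h
  fin_cases i
  exact hi

theorem natR_num (m : ℕ) : Prov (Q ++ [axN0, axNS]) (NatR (num m)) := by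
  induction m with
  | zero => exact pAx (by simp [axN0, num])
  | succ m ih =>
    have h0 : Prov (Q ++ [axN0, axNS]) (.all 0 (.imp (NatR (.var 0)) (NatR (succ (.var 0))))) :=
      pAx (a := axNS) (by simp)
    have h := pInst h0 (num m) (freeFor_closed _ _ (by simp))
    rw [subst_imp, natR_subst, natR_subst] at h
    exact pMp (by simpa [num] using h) ih

theorem m3a : M3aStatement := by
  intro F hF
  obtain ⟨φ, h1, h2⟩ := graph_def hF 2 0
  refine ⟨conj (NatR (.var 0)) (tr NatR (fun _ => none) φ), ?_, ?_, ?_, ?_⟩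
  · exact .imp _ _ (.imp _ _ (.nat _ (.var 0)) (.imp _ _ (tr_class Static .bot .eq .imp .all
      (fun x => .nat _ (.var x)) φ _) .bot)) .bot
  · intro x hx
    rw [free_conj] at hx
    rcases hx with hx | hx
    · exact Or.inl (natR_free _ _ hx).symm
    · exact h1 x (tr_free natR_free φ hx)
  · intro c
    rw [subst_conj, subst_conj, natR_subst, natR_subst, tr_subst natR_subst c 2 φ rfl,
      tr_subst natR_subst (F c) 0 φ (by simp)]
    refine pConj (by simpa using natR_num (F c)) ?_
    rw [tr_congr NatR φ (τ := fun i => some (if i = 0 then F c else c))]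
    · exact complete (fun a ha => List.mem_append_left _ ha) natR_subst natR_num φ _
        ((h2 _).mpr (by simp))
    · intro w hw
      rcases h1 w hw with rfl | rfl <;> simp
  · intro D M ι hM v c hv hs
    have hs' : sat M v (NatR (.var 0)) ∧ sat M v (tr NatR (fun _ => none) φ) := by
      by_contra hc
      exact hs fun h1 h2 => hc ⟨h1, h2⟩
    obtain ⟨m, hm⟩ := (sat_nat hM v 0).mp hs'.1
    have := absolute hM φ v (fun i => if i = 0 then m else c) (fun i hi => by
      rcases h1 i hi with rfl | rfl <;> simp [hm, hv]) hs'.2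
    rw [h2] at this
    rw [hm]
    simpa using congrArg ι this

theorem m3b : M3bStatement := by
  intro R hR
  obtain ⟨φ, h1, h2⟩ := rel_def hR
  have hg : ∀ (t : Tm) x u, (Fm.eq t t).subst x u = Fm.eq (t.subst x u) (t.subst x u) :=
    fun _ _ _ => rfl
  refine ⟨tr (fun t => .eq t t) (fun _ => none) φ, ?_, ?_, fun c n => ?_⟩
  · exact tr_class (g := fun t => .eq t t) ArF .bot .eq .imp .all
      (fun x => .eq _ _ (.var x) (.var x)) φ _
  · exact fun x hx => h1 x (tr_free (g := fun t => .eq t t) (fun t w h => Or.elim h id id) φ hx)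
  · rw [con, tr_subst hg c 0 φ rfl, tr_subst hg n 1 φ (by simp)]
    constructor
    · rw [holds_tr, h2]
      simp
    · intro h
      rw [tr_congr _ φ (τ := fun i => some (if i = 0 then c else n))]
      · exact complete (fun a ha => ha) hg (fun m => pRefl _) φ _ ((h2 _).mpr (by simpa using h))
      · intro w hw
        rcases h1 w hw with rfl | rfl <;> simp

end Pool.Agent.MP_8ec908_lc.H9
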