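import Pool.Agent.MP_8ec908_lc.H18.Iface

/-! A small toolkit for unbounded provability. -/

namespace Pool.Agent.MP_8ec908_lc.H9

open Pool.Agent.MP_8ec908_lc.Defs Pool.Agent.MP_8ec908_lc.H18

variable {A : List Fm}

theorem isProof_append {p q : List Fm} (hp : IsProof A p) (hq : IsProof A q) :
    IsProof A (p ++ q) := by
  induction hp with
  | nil => exact hq
  | logic p a _ h ih => exact .logic _ _ ih h
  | ax p a _ h ih => exact .ax _ _ ih h
  | mp p a b _ h1 h2 ih =>
    exact .mp _ a b ih (List.mem_append_left _ h1) (List.mem_append_left _ h2)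
  | gen p x a _ h ih => exact .gen _ x a ih (List.mem_append_left _ h)

theorem pLogic {a : Fm} (h : LogAx a) : Prov A a := ⟨[a], .logic _ _ .nil h, by simp⟩

theorem pAx {a : Fm} (h : a ∈ A) : Prov A a := ⟨[a], .ax _ _ .nil h, by simp⟩

theorem pMp {a b : Fm} (h1 : Prov A (.imp a b)) (h2 : Prov A a) : Prov A b := by
  obtain ⟨p, hp, h1⟩ := h1
  obtain ⟨q, hq, h2⟩ := h2
  exact ⟨b :: (p ++ q), .mp _ a b (isProof_append hp hq) (List.mem_append_right _ h2)
    (List.mem_append_left _ h1), by simp⟩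

theorem pGen (x : ℕ) {a : Fm} (h : Prov A a) : Prov A (.all x a) := by
  obtain ⟨p, hp, h⟩ := h
  exact ⟨.all x a :: p, .gen _ x a hp h, by simp⟩

/-- Propositional derivability from theorems and hypotheses. -/
inductive PD (A : List Fm) (Γ : List Fm) : Fm → Prop
  | thm {a : Fm} : Prov A a → PD A Γ a
  | hyp {a : Fm} : a ∈ Γ → PD A Γ a
  | mp {a b : Fm} : PD A Γ (.imp a b) → PD A Γ a → PD A Γ b

theorem pId (a : Fm) : Prov A (.imp a a) :=
  pMp (pMp (pLogic (.s a (.imp a a) a)) (pLogic (.k a (.imp a a)))) (pLogic (.k a a))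

namespace PD

variable {Γ : List Fm}

theorem intro {a b : Fm} (h : PD A (a :: Γ) b) : PD A Γ (.imp a b) := by
  induction h with
  | thm h => exact .mp (.thm (pLogic (.k _ a))) (.thm h)
  | hyp h =>
    rcases List.mem_cons.mp h with rfl | h
    · exact .thm (pId _)
    · exact .mp (.thm (pLogic (.k _ a))) (.hyp h)
  | mp _ _ ih1 ih2 => exact .mp (.mp (.thm (pLogic (.s _ _ _))) ih1) ih2

theorem prov {a : Fm} (h : PD A [] a) : Prov A a := by
  induction h with
  | thm h => exact h
  | hyp h => simp at h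
  | mp _ _ ih1 ih2 => exact pMp ih1 ih2

theorem weak {a b : Fm} (h : PD A Γ b) : PD A (a :: Γ) b := by
  induction h with
  | thm h => exact .thm h
  | hyp h => exact .hyp (List.mem_cons_of_mem _ h)
  | mp _ _ ih1 ih2 => exact .mp ih1 ih2

theorem h0 {a : Fm} : PD A (a :: Γ) a := .hyp (by simp)
theorem h1 {a b : Fm} : PD A (b :: a :: Γ) a := .hyp (by simp)
theorem h2 {a b c : Fm} : PD A (c :: b :: a :: Γ) a := .hyp (by simp)
theorem h3 {a b c d : Fm} : PD A (d :: c :: b :: a :: Γ) a := .hyp (by simp)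

theorem ap {a b : Fm} (h : Prov A (.imp a b)) (h' : PD A Γ a) : PD A Γ b := .mp (.thm h) h'

theorem byContra {a : Fm} (h : PD A (neg a :: Γ) .bot) : PD A Γ a :=
  ap (pLogic (.dn a)) h.intro

theorem efq {a : Fm} (h : PD A Γ .bot) : PD A Γ a := byContra h.weak

theorem byCases (a : Fm) {c : Fm} (h : PD A (a :: Γ) c) (h' : PD A (neg a :: Γ) c) : PD A Γ c :=
  byContra (.mp h0 (.mp h'.intro.weak (intro (.mp h1 (.mp h.intro.weak.weak h0)))))

end PD

/-! ### Syntax lemmas -/

theorem tm_subst_not {t : Tm} {x : ℕ} (u : Tm) (h : ¬ t.Occ x) : t.subst x u = t := by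
  induction t with
  | var i => simp only [Tm.Occ] at h; simp [Tm.subst, h]
  | app k n ts ih =>
    simp only [Tm.Occ, not_exists] at h
    simp only [Tm.subst]
    congr 1
    funext i
    exact ih i (h i)

theorem tm_subst_self (t : Tm) (x : ℕ) : t.subst x (.var x) = t := by
  induction t with
  | var i => by_cases h : i = x <;> simp [Tm.subst, h]
  | app k n ts ih => simp only [Tm.subst, ih]

theorem fm_subst_self (a : Fm) (x : ℕ) : a.subst x (.var x) = a := by
  induction a with
  | bot => rfl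
  | eq s t => simp only [Fm.subst, tm_subst_self]
  | rel k n ts => simp only [Fm.subst, tm_subst_self]
  | imp a b ih1 ih2 => simp only [Fm.subst, ih1, ih2]
  | all y a ih => simp only [Fm.subst, ih, ite_self]

theorem freeFor_self (a : Fm) (x : ℕ) : a.FreeFor x (.var x) := by
  induction a with
  | bot => trivial
  | eq s t => trivial
  | rel k n ts => trivial
  | imp a b ih1 ih2 => exact ⟨ih1, ih2⟩
  | all y a ih =>
    by_cases h : y = x
    · exact Or.inl fun h' => h'.1 h
    · exact Or.inr ⟨fun h' => h (Eq.symm h'), ih⟩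

theorem freeFor_closed (a : Fm) (x : ℕ) {u : Tm} (hu : ∀ y, ¬ u.Occ y) : a.FreeFor x u := by
  induction a with
  | bot => trivial
  | eq s t => trivial
  | rel k n ts => trivial
  | imp a b ih1 ih2 => exact ⟨ih1, ih2⟩
  | all y a ih => exact Or.inr ⟨hu y, ih⟩

theorem tm_fresh (t : Tm) : ∃ N, ∀ x, N ≤ x → ¬ t.Occ x := by
  induction t with
  | var i => exact ⟨i + 1, fun x hx h => by simp only [Tm.Occ] at h; omega⟩
  | app k n ts ih =>
    choose f hf using ih
    refine ⟨Finset.univ.sup f, fun x hx ⟨i, hi⟩ => hf i x (le_trans ?_ hx) hi⟩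
    exact Finset.le_sup (Finset.mem_univ i)

theorem fm_fresh (a : Fm) : ∃ N, ∀ x, N ≤ x → ¬ a.Free x := by
  induction a with
  | bot => exact ⟨0, fun _ _ h => h⟩
  | eq s t =>
    obtain ⟨N, hN⟩ := tm_fresh s
    obtain ⟨M, hM⟩ := tm_fresh t
    exact ⟨max N M, fun x hx h => h.elim (hN x (by omega)) (hM x (by omega))⟩
  | rel k n ts => exact tm_fresh (.app k n ts)
  | imp a b ih1 ih2 =>
    obtain ⟨N, hN⟩ := ih1
    obtain ⟨M, hM⟩ := ih2
    exact ⟨max N M, fun x hx h => h.elim (hN x (by omega)) (hM x (by omega))⟩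
  | all y a ih =>
    obtain ⟨N, hN⟩ := ih
    exact ⟨N, fun x hx h => hN x hx h.2⟩

theorem fm_occ_subst_tm {t u : Tm} {x w : ℕ} (h : (t.subst x u).Occ w) : t.Occ w ∨ u.Occ w := by
  induction t with
  | var i =>
    by_cases hi : i = x
    · simp only [Tm.subst, hi, if_true] at h
      exact Or.inr h
    · simp only [Tm.subst, hi, if_false] at h
      exact Or.inl h
  | app k n ts ih =>
    obtain ⟨i, hi⟩ := h
    exact (ih i hi).imp_left fun h => ⟨i, h⟩

theorem free_subst {a : Fm} {u : Tm} {x w : ℕ} (h : (a.subst x u).Free w) :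
    a.Free w ∨ u.Occ w := by
  induction a with
  | bot => exact h.elim
  | eq s t =>
    rcases h with h | h
    · exact (fm_occ_subst_tm h).imp_left Or.inl
    · exact (fm_occ_subst_tm h).imp_left Or.inr
  | rel k n ts =>
    obtain ⟨i, hi⟩ := h
    exact (fm_occ_subst_tm hi).imp_left fun h => ⟨i, h⟩
  | imp a b ih1 ih2 =>
    rcases h with h | h
    · exact (ih1 h).imp_left Or.inl
    · exact (ih2 h).imp_left Or.inr
  | all y a ih =>
    by_cases hy : y = x
    · simp only [Fm.subst, hy, if_true] at h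
      exact Or.inl (hy ▸ h)
    · simp only [Fm.subst, hy, if_false] at h
      exact (ih h.2).imp_left fun h' => ⟨h.1, h'⟩

@[simp] theorem subst_var (i x : ℕ) (u : Tm) :
    (Tm.var i).subst x u = if i = x then u else .var i := rfl

@[simp] theorem subst_zero (x : ℕ) (u : Tm) : zero.subst x u = zero := by
  simp only [zero, Tm.subst]
  congr 1
  funext i
  exact i.elim0

@[simp] theorem subst_succ (t : Tm) (x : ℕ) (u : Tm) :
    (succ t).subst x u = succ (t.subst x u) := by
  simp only [succ, Tm.subst]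
  congr 1
  funext i
  fin_cases i
  rfl

@[simp] theorem subst_add (s t : Tm) (x : ℕ) (u : Tm) :
    (add s t).subst x u = add (s.subst x u) (t.subst x u) := by
  simp only [add, Tm.subst]
  congr 1
  funext i
  fin_cases i <;> rfl

@[simp] theorem subst_mul (s t : Tm) (x : ℕ) (u : Tm) :
    (mul s t).subst x u = mul (s.subst x u) (t.subst x u) := by
  simp only [mul, Tm.subst]
  congr 1
  funext i
  fin_cases i <;> rfl

@[simp] theorem occ_var (i x : ℕ) : (Tm.var i).Occ x ↔ i = x := Iff.rfl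

@[simp] theorem occ_zero (x : ℕ) : zero.Occ x ↔ False := by simp [zero, Tm.Occ]

@[simp] theorem occ_succ (t : Tm) (x : ℕ) : (succ t).Occ x ↔ t.Occ x := by
  simp [succ, Tm.Occ]

@[simp] theorem occ_add (s t : Tm) (x : ℕ) : (add s t).Occ x ↔ s.Occ x ∨ t.Occ x := by
  simp [add, Tm.Occ, Fin.exists_fin_two]

@[simp] theorem occ_mul (s t : Tm) (x : ℕ) : (mul s t).Occ x ↔ s.Occ x ∨ t.Occ x := by
  simp [mul, Tm.Occ, Fin.exists_fin_two]

@[simp] theorem occ_num (n x : ℕ) : (num n).Occ x ↔ False := by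
  induction n with
  | zero => simp [num]
  | succ n ih => simp [num, ih]

@[simp] theorem subst_num (n x : ℕ) (u : Tm) : (num n).subst x u = num n :=
  tm_subst_not u (by simp)

@[simp] theorem subst_eq (s t : Tm) (x : ℕ) (u : Tm) :
    (Fm.eq s t).subst x u = .eq (s.subst x u) (t.subst x u) := rfl

@[simp] theorem subst_imp (a b : Fm) (x : ℕ) (u : Tm) :
    (Fm.imp a b).subst x u = .imp (a.subst x u) (b.subst x u) := rfl

@[simp] theorem subst_neg (a : Fm) (x : ℕ) (u : Tm) : (neg a).subst x u = neg (a.subst x u) := rfl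

@[simp] theorem subst_conj (a b : Fm) (x : ℕ) (u : Tm) :
    (conj a b).subst x u = conj (a.subst x u) (b.subst x u) := rfl

theorem subst_all (y : ℕ) (a : Fm) (x : ℕ) (u : Tm) :
    (Fm.all y a).subst x u = if y = x then .all y a else .all y (a.subst x u) := rfl

@[simp] theorem free_eq (s t : Tm) (x : ℕ) : (Fm.eq s t).Free x ↔ s.Occ x ∨ t.Occ x := Iff.rfl

@[simp] theorem free_imp (a b : Fm) (x : ℕ) : (Fm.imp a b).Free x ↔ a.Free x ∨ b.Free x := Iff.rfl

@[simp] theorem free_all (y : ℕ) (a : Fm) (x : ℕ) : (Fm.all y a).Free x ↔ y ≠ x ∧ a.Free x :=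
  Iff.rfl

@[simp] theorem free_neg (a : Fm) (x : ℕ) : (neg a).Free x ↔ a.Free x := by
  simp [neg, Fm.Free]

@[simp] theorem free_conj (a b : Fm) (x : ℕ) : (conj a b).Free x ↔ a.Free x ∨ b.Free x := by
  simp [conj]

@[simp] theorem free_ex (y : ℕ) (a : Fm) (x : ℕ) : (ex y a).Free x ↔ y ≠ x ∧ a.Free x := by
  simp [ex]

/-! ### Quantifiers -/

theorem pInst {x : ℕ} {a : Fm} (h : Prov A (.all x a)) (u : Tm) (hf : a.FreeFor x u) :
    Prov A (a.subst x u) := pMp (pLogic (.inst x u a hf)) h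

theorem pAllElim (x : ℕ) (a : Fm) : Prov A (.imp (.all x a) a) := by
  have := pLogic (A := A) (.inst x (.var x) a (freeFor_self a x))
  rwa [fm_subst_self] at this

theorem pGenImp {x : ℕ} {a b : Fm} (h : Prov A (.imp a b)) (hx : ¬ a.Free x) :
    Prov A (.imp a (.all x b)) := pMp (pLogic (.dist x a b hx)) (pGen x h)

theorem pExElim {x : ℕ} {a b : Fm} (h : Prov A (.imp a b)) (hx : ¬ b.Free x) :
    Prov A (.imp (ex x a) b) := by
  have h1 : Prov A (.imp (neg b) (neg a)) :=
    (PD.intro (PD.intro (.mp PD.h1 (PD.ap h PD.h0)))).prov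
  have h2 := pGenImp (x := x) h1 (by simpa using hx)
  exact (PD.intro (PD.byContra (.mp PD.h1 (PD.ap h2 PD.h0)))).prov

theorem pExIntro {x : ℕ} {a : Fm} {u : Tm} (hf : a.FreeFor x u) :
    Prov A (.imp (a.subst x u) (ex x a)) := by
  have h1 := pLogic (A := A) (.inst x u (neg a) ⟨hf, trivial⟩)
  exact (PD.intro (PD.intro (.mp (PD.ap h1 PD.h0) PD.h1))).prov

theorem pConj {a b : Fm} (ha : Prov A a) (hb : Prov A b) : Prov A (conj a b) :=
  (PD.intro (.mp (.mp PD.h0 (.thm ha)) (.thm hb))).prov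

/-! ### Equality -/

theorem pRefl (t : Tm) : Prov A (.eq t t) := pLogic (.refl t)

theorem pLeib1 (s t r : Tm) : Prov A (.imp (.eq s t) (.imp (.eq s r) (.eq t r))) := by
  obtain ⟨N, hN⟩ := tm_fresh r
  have := pLogic (A := A) (.leib N s t (.eq (.var N) r) trivial)
  simpa [tm_subst_not _ (hN N le_rfl)] using this

namespace PD

variable {Γ : List Fm}

theorem symm {s t : Tm} (h : PD A Γ (.eq s t)) : PD A Γ (.eq t s) :=
  .mp (ap (pLeib1 s t s) h) (.thm (pRefl s))

theorem trans {s t r : Tm} (h : PD A Γ (.eq s t)) (h' : PD A Γ (.eq t r)) : PD A Γ (.eq s r) :=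
  .mp (ap (pLeib1 t s r) h.symm) h'

theorem ctx (c : Tm → Tm) (N : ℕ)
    (hc : ∀ x, N ≤ x → ∀ u, (c (.var x)).subst x u = c u) {s t : Tm}
    (h : PD A Γ (.eq s t)) : PD A Γ (.eq (c s) (c t)) := by
  obtain ⟨M, hM⟩ := tm_fresh (c s)
  have := pLogic (A := A) (.leib (max N M) s t (.eq (c s) (c (.var (max N M)))) trivial)
  rw [subst_eq, subst_eq, hc _ (le_max_left _ _), hc _ (le_max_left _ _),
    tm_subst_not _ (hM _ (le_max_right _ _)), tm_subst_not _ (hM _ (le_max_right _ _))] at this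
  exact .mp (ap this h) (.thm (pRefl _))

theorem succ {s t : Tm} (h : PD A Γ (.eq s t)) : PD A Γ (.eq (succ s) (succ t)) :=
  ctx Defs.succ 0 (fun x _ u => by simp) h

theorem add {s t s' t' : Tm} (h : PD A Γ (.eq s t)) (h' : PD A Γ (.eq s' t')) :
    PD A Γ (.eq (add s s') (add t t')) := by
  obtain ⟨N, hN⟩ := tm_fresh s'
  obtain ⟨M, hM⟩ := tm_fresh t
  exact (ctx (fun u => Defs.add u s') N (fun x hx u => by simp [tm_subst_not _ (hN x hx)]) h).trans
    (ctx (fun u => Defs.add t u) M (fun x hx u => by simp [tm_subst_not _ (hM x hx)]) h')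

theorem mul {s t s' t' : Tm} (h : PD A Γ (.eq s t)) (h' : PD A Γ (.eq s' t')) :
    PD A Γ (.eq (mul s s') (mul t t')) := by
  obtain ⟨N, hN⟩ := tm_fresh s'
  obtain ⟨M, hM⟩ := tm_fresh t
  exact (ctx (fun u => Defs.mul u s') N (fun x hx u => by simp [tm_subst_not _ (hN x hx)]) h).trans
    (ctx (fun u => Defs.mul t u) M (fun x hx u => by simp [tm_subst_not _ (hM x hx)]) h')

end PD

/-- Leibniz law for arbitrary formulas and a closed term. -/
theorem pLeib (x : ℕ) {u : Tm} (hu : ∀ y, ¬ u.Occ y) (a : Fm) :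
    Prov A (.imp (.eq (.var x) u) (.imp (a.subst x u) a)) ∧
    Prov A (.imp (.eq (.var x) u) (.imp a (a.subst x u))) := by
  have atom : ∀ a : Fm, a.Atomic → Prov A (.imp (.eq (.var x) u) (.imp (a.subst x u) a)) ∧
      Prov A (.imp (.eq (.var x) u) (.imp a (a.subst x u))) := by
    intro a ha
    have h1 := pLogic (A := A) (.leib x u (.var x) a ha)
    have h2 := pLogic (A := A) (.leib x (.var x) u a ha)
    rw [fm_subst_self] at h1 h2
    exact ⟨(PD.intro (PD.ap h1 PD.h0.symm)).prov, h2⟩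
  induction a with
  | bot => exact ⟨(PD.intro (PD.intro PD.h0)).prov, (PD.intro (PD.intro PD.h0)).prov⟩
  | eq s t => exact atom _ trivial
  | rel k n ts => exact atom _ trivial
  | imp a b iha ihb =>
    constructor
    · exact (PD.intro (PD.intro (PD.intro
        (.mp (PD.ap ihb.1 PD.h2) (.mp PD.h1 (.mp (PD.ap iha.2 PD.h2) PD.h0)))))).prov
    · exact (PD.intro (PD.intro (PD.intro
        (.mp (PD.ap ihb.2 PD.h2) (.mp PD.h1 (.mp (PD.ap iha.1 PD.h2) PD.h0)))))).prov
  | all y a ih =>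
    rw [subst_all]
    split_ifs with hy
    · exact ⟨(PD.intro (PD.intro PD.h0)).prov, (PD.intro (PD.intro PD.h0)).prov⟩
    · have key : ∀ b c : Fm, Prov A (.imp (.eq (.var x) u) (.imp b c)) →
          Prov A (.imp (.eq (.var x) u) (.imp (.all y b) (.all y c))) := by
        intro b c h
        have h1 : Prov A (.imp (.eq (.var x) u) (.imp (.all y b) c)) :=
          (PD.intro (PD.intro (.mp (PD.ap h PD.h1) (PD.ap (pAllElim y b) PD.h0)))).prov
        have h2 := pGenImp (x := y) h1 (by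
          simp only [free_eq, occ_var, not_or]
          exact ⟨fun h => hy h.symm, hu y⟩)
        have h3 := pLogic (A := A) (.dist y (.all y b) c (by simp))
        exact (PD.intro (PD.ap h3 (PD.ap h2 PD.h0))).prov
      exact ⟨key _ _ ih.1, key _ _ ih.2⟩

/-! ### Robinson arithmetic -/

theorem inst2 (F : Tm → Tm → Fm)
    (hs : ∀ s t x u, (F s t).subst x u = F (s.subst x u) (t.subst x u))
    (hf : ∀ s t x u, (F s t).FreeFor x u)
    (h : Prov A (.all 0 (.all 1 (F (.var 0) (.var 1))))) (s t : Tm) : Prov A (F s t) := by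
  obtain ⟨N, hN⟩ := tm_fresh t
  have h1 := pInst h (.var (N + 2)) (Or.inr ⟨by simp, hf _ _ _ _⟩)
  rw [subst_all, if_neg (by simp), hs] at h1
  have h2 := pInst h1 t (hf _ _ _ _)
  rw [hs] at h2
  have h3 := pInst (pGen (N + 2) h2) s (hf _ _ _ _)
  rw [hs] at h3
  simpa [tm_subst_not _ (hN (N + 2) (by omega))] using h3

section Q

variable (hQ : ∀ a ∈ Q, a ∈ A)
include hQ

theorem q1 (t : Tm) : Prov A (neg (.eq (succ t) zero)) := by
  have := pInst (pAx (hQ (.all 0 (neg (.eq (succ (.var 0)) zero))) (by simp [Q]))) t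
    ⟨trivial, trivial⟩
  simpa using this

theorem q2 (s t : Tm) : Prov A (.imp (.eq (succ s) (succ t)) (.eq s t)) :=
  inst2 (fun s t => .imp (.eq (succ s) (succ t)) (.eq s t)) (by simp)
    (fun _ _ _ _ => ⟨trivial, trivial⟩) (pAx (hQ _ (by simp [Q]))) s t

theorem q3 (t : Tm) (y : ℕ) (hy : ¬ t.Occ y) :
    Prov A (.imp (neg (.eq t zero)) (ex y (.eq t (succ (.var y))))) := by
  set w := y + 2 with hw
  have h0 := pInst (pAx (hQ (.all 0 (.imp (neg (.eq (.var 0) zero))
    (ex 1 (.eq (.var 0) (succ (.var 1)))))) (by simp [Q]))) (.var w)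
    ⟨⟨trivial, trivial⟩, Or.inr ⟨by simp [hw], trivial, trivial⟩, trivial⟩
  have h0' : Prov A (.imp (neg (.eq (.var w) zero)) (ex 1 (.eq (.var w) (succ (.var 1))))) := by
    simpa [ex, subst_all] using h0
  have h1 : Prov A (.imp (.eq (.var w) (succ (.var 1))) (ex y (.eq (.var w) (succ (.var y))))) := by
    have := pExIntro (A := A) (x := y) (a := .eq (.var w) (succ (.var y))) (u := .var 1) trivial
    simpa [hw] using this
  have h2 := pExElim (x := 1) h1 (by simp [hw])
  have h3 : Prov A (.imp (neg (.eq (.var w) zero)) (ex y (.eq (.var w) (succ (.var y))))) :=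
    (PD.intro (PD.ap h2 (PD.ap h0' PD.h0))).prov
  have h4 := pInst (pGen w h3) t ⟨⟨trivial, trivial⟩, Or.inr ⟨hy, trivial, trivial⟩, trivial⟩
  have hne : y ≠ w := by omega
  simpa [ex, subst_all, hne] using h4

theorem q4 (t : Tm) : Prov A (.eq (add t zero) t) := by
  have := pInst (pAx (hQ (.all 0 (.eq (add (.var 0) zero) (.var 0))) (by simp [Q]))) t trivial
  simpa using this

theorem q5 (s t : Tm) : Prov A (.eq (add s (succ t)) (succ (add s t))) :=
  inst2 (fun s t => .eq (add s (succ t)) (succ (add s t))) (by simp)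
    (fun _ _ _ _ => trivial) (pAx (hQ _ (by simp [Q]))) s t

theorem q6 (t : Tm) : Prov A (.eq (mul t zero) zero) := by
  have := pInst (pAx (hQ (.all 0 (.eq (mul (.var 0) zero) zero)) (by simp [Q]))) t trivial
  simpa using this

theorem q7 (s t : Tm) : Prov A (.eq (mul s (succ t)) (add (mul s t) s)) :=
  inst2 (fun s t => .eq (mul s (succ t)) (add (mul s t) s)) (by simp)
    (fun _ _ _ _ => trivial) (pAx (hQ _ (by simp [Q]))) s t

theorem add_num (a b : ℕ) : Prov A (.eq (add (num a) (num b)) (num (a + b))) := by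
  induction b with
  | zero => exact q4 hQ _
  | succ b ih => exact ((PD.thm (q5 hQ _ _)).trans (PD.thm ih).succ).prov

theorem mul_num (a b : ℕ) : Prov A (.eq (mul (num a) (num b)) (num (a * b))) := by
  induction b with
  | zero => exact q6 hQ _
  | succ b ih =>
    exact ((PD.thm (q7 hQ _ _)).trans (((PD.thm ih).add (.thm (pRefl _))).trans
      (.thm (add_num hQ _ _)))).prov

/-- Bounded case distinction. -/
theorem bounded (n : ℕ) : ∀ (s t : Tm) (c : Fm),
    (∀ m, m ≤ n → Prov A (.imp (.eq t (num m)) c)) → Prov A (.imp (.eq (add s t) (num n)) c) := by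
  induction n with
  | zero =>
    intro s t c h
    obtain ⟨N, hN⟩ := fm_fresh (.imp (.eq (add s t) (num 0)) c)
    have hN' := hN N le_rfl
    have h1 : Prov A (.imp (.eq t (succ (.var N))) (.imp (.eq (add s t) (num 0)) c)) := by
      refine (PD.intro (PD.intro (PD.efq (PD.ap (q1 hQ (add s (.var N))) ?_)))).prov
      exact ((PD.thm (q5 hQ _ _)).symm.trans ((PD.thm (pRefl s)).add PD.h1.symm)).trans PD.h0
    have h2 := pExElim (x := N) h1 hN'
    have h3 := q3 hQ t N (fun h => hN' (by simp [h]))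
    exact (PD.byCases (.eq t zero) (PD.intro (PD.ap (h 0 le_rfl) PD.h1))
      (PD.ap h2 (PD.ap h3 PD.h0))).prov
  | succ n ih =>
    intro s t c h
    obtain ⟨N, hN⟩ := fm_fresh (.imp (.eq (add s t) (num (n + 1))) c)
    have hN' := hN N le_rfl
    have h0 := ih s (.var N) (.imp (.eq t (succ (.var N))) c) fun m hm =>
      (PD.intro (PD.intro (PD.ap (h (m + 1) (by omega)) (PD.h0.trans PD.h1.succ)))).prov
    have h1 : Prov A (.imp (.eq t (succ (.var N))) (.imp (.eq (add s t) (num (n + 1))) c)) := by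
      refine (PD.intro (PD.intro (.mp (PD.ap h0 (PD.ap (q2 hQ _ _) ?_)) PD.h1))).prov
      exact ((PD.thm (q5 hQ _ _)).symm.trans ((PD.thm (pRefl s)).add PD.h1.symm)).trans PD.h0
    have h2 := pExElim (x := N) h1 hN'
    have h3 := q3 hQ t N (fun h => hN' (by simp [h]))
    exact (PD.byCases (.eq t zero) (PD.intro (PD.ap (h 0 (Nat.zero_le _)) PD.h1))
      (PD.ap h2 (PD.ap h3 PD.h0))).prov

end Q

end Pool.Agent.MP_8ec908_lc.H9
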